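import Pool.Agent.LibHU64.B1

/-!
ROW B1 (SHORT/MEDIUM: a copy of `Pool/Agent/LibHU64/B1.lean` with other constants). The angle between two large integral points of nearly the same size.

PLAN. Copy `Pool/Agent/LibHU64/B1.lean` (its private lemmas `B1_low`, `B1_int`, `B1_fin` too). With `η = min η' 1 / 100` and `M₀` so large that all errors `c ℓ` are `≤ η X`
(`M₀ ≥ (1000 (C₀ + 6) + 100) / η` or so): `p = hh P`, `q = hh Q ∈ [(1 - η) X, (1 + 2 η) X]`, `T = hh (P + Q) - p - q`, `|T| ≤ p + q - X + η X ≤ (1 + 5 η) X`, and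
`(1 + 5 η)² ≤ (1 + η') (1 - η)²`, so `T² ≤ (1 + η') p q`.
-/

set_option autoImplicit false

open WeierstrassCurve Pool.Agent.LibDP24 Pool.Agent.LibHU64

namespace Pool.Agent.LibHV64

private theorem B1_low {A B : ℤ} (C₀ : ℝ) (hh : Pt A B → ℝ) (hc : IsCan C₀ hh)
    (P Q : Pt A B) (X : ℝ) (hP : Near P) (hQ : Near Q) (h1 : uu P ^ 2 ≤ 2 / Real.exp X)
    (h2 : uu Q ^ 2 ≤ 2 / Real.exp X) (hma : 10 ^ 6 * aa A B ≤ Real.exp X) (hne : P + Q ≠ 0) :
    X - (C₀ + 6) * ell A B ≤ hh (P + Q) := by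
  have ha := aa_ge A B
  have hl := ell_ge A B
  set a := aa A B with hadef
  set m := Real.exp X with hmdef
  have hm : 0 < m := Real.exp_pos X
  have hm1 : 10 ^ 6 ≤ m := by nlinarith
  set U := |uu P| + |uu Q| with hU
  have hU0 : 0 ≤ U := by positivity
  have hU2 : U ^ 2 ≤ 8 / m := by
    have e1 : U ^ 2 ≤ 2 * (uu P ^ 2 + uu Q ^ 2) := by
      have := sq_nonneg (|uu P| - |uu Q|)
      have h3 := sq_abs (uu P)
      have h4 := sq_abs (uu Q)
      rw [hU]
      nlinarith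
    have e2 : 8 / m = 2 * (2 / m + 2 / m) := by ring
    rw [e2]
    linarith
  have hr : a / m ≤ 1 / 10 ^ 6 := by
    rw [div_le_div_iff₀ hm (by norm_num)]
    linarith
  have hr0 : 0 ≤ a / m := by positivity
  have h1m : 1 / m ≤ 1 / 10 ^ 6 := by
    rw [div_le_div_iff₀ hm (by norm_num)]
    linarith
  have h1m0 : 0 ≤ 1 / m := by positivity
  have haU : a * U ^ 2 ≤ 8 * (a / m) := by
    calc a * U ^ 2 ≤ a * (8 / m) := mul_le_mul_of_nonneg_left hU2 (by linarith)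
      _ = 8 * (a / m) := by ring
  have hn := near_add P Q hP hQ (by
    rw [← hadef, ← hU]
    linarith)
  obtain ⟨hN, hE⟩ := hn
  rw [← hadef, ← hU] at hE
  have hU4 : 1000 * a * U ^ 5 ≤ U / 10 := by
    have e1 : 1000 * a * U ^ 5 = U * (1000 * (a * U ^ 2) * U ^ 2) := by ring
    have e2 : a * U ^ 2 ≤ 1 / 10 ^ 5 := by linarith
    have e3 : U ^ 2 ≤ 1 / 10 ^ 5 := by
      have : 8 / m = 8 * (1 / m) := by ring
      rw [this] at hU2
      linarith
    have e4 : 0 ≤ a * U ^ 2 := by positivity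
    have e5 : 0 ≤ U ^ 2 := by positivity
    have e6 : 1000 * (a * U ^ 2) * U ^ 2 ≤ 1 / 10 := by nlinarith
    rw [e1]
    nlinarith
  have hR : |uu (P + Q)| ≤ 11 / 10 * U := by
    have e1 : uu (P + Q) = (uu (P + Q) - uu P - uu Q) + (uu P + uu Q) := by ring
    have e2 := abs_add_le (uu (P + Q) - uu P - uu Q) (uu P + uu Q)
    have e3 := abs_add_le (uu P) (uu Q)
    rw [← e1] at e2
    linarith
  have hR2 : uu (P + Q) ^ 2 ≤ 10 / m := by
    have e1 : uu (P + Q) ^ 2 ≤ (11 / 10 * U) ^ 2 := by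
      rw [← sq_abs]
      exact pow_le_pow_left₀ (abs_nonneg _) hR 2
    have e2 : 10 / m = 10 * (1 / m) := by ring
    have e3 : 8 / m = 8 * (1 / m) := by ring
    rw [e3] at hU2
    rw [e2]
    nlinarith
  have haR : a * uu (P + Q) ^ 2 ≤ 1 / 1000 := by
    calc a * uu (P + Q) ^ 2 ≤ a * (10 / m) := mul_le_mul_of_nonneg_left hR2 (by linarith)
      _ = 10 * (a / m) := by ring
      _ ≤ 1 / 1000 := by linarith
  -- the sum is not zero
  generalize hS : P + Q = S at *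
  rcases S with _ | ⟨xr, yr, hxy⟩
  · exact absurd rfl hne
  have hx := (near_x hxy hN (by rw [← hadef]; exact haR)).1
  have hu0 : 0 < uu (Affine.Point.some xr yr hxy : Pt A B) ^ 2 := by
    rcases (sq_nonneg (uu (Affine.Point.some xr yr hxy : Pt A B))).eq_or_lt with h | h
    · rw [← h, mul_zero] at hx
      norm_num at hx
    · exact h
  have hxr : m / 20 ≤ (xr : ℝ) := by
    have hxpos : 0 < (xr : ℝ) := by
      by_contra hcon
      push Not at hcon
      have := mul_nonpos_of_nonpos_of_nonneg hcon hu0.le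
      linarith
    have e1 : (xr : ℝ) * uu (Affine.Point.some xr yr hxy : Pt A B) ^ 2 ≤ (xr : ℝ) * (10 / m) :=
      mul_le_mul_of_nonneg_left hR2 hxpos.le
    have e2 : 1 / 2 ≤ (xr : ℝ) * (10 / m) := hx.trans e1
    have e3 : (xr : ℝ) * (10 / m) = (xr : ℝ) * 10 / m := by ring
    rw [e3, le_div_iff₀ hm] at e2
    linarith
  have hlog : X - 3 ≤ Real.log |((xr : ℚ) : ℝ)| := by
    have e0 : 0 < m / 20 := by positivity
    have e1 : Real.log (m / 20) ≤ Real.log |((xr : ℚ) : ℝ)| := by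
      apply Real.log_le_log e0
      exact hxr.trans (le_abs_self _)
    have e2 : Real.log (m / 20) = X - Real.log 20 := by
      rw [Real.log_div hm.ne' (by norm_num), hmdef, Real.log_exp]
    have e3 : Real.log 20 ≤ 3 := by
      have h5 : (20 : ℝ) ≤ Real.exp 3 := by
        have h6 := Real.exp_one_gt_d9
        have h7 : Real.exp 3 = Real.exp 1 ^ 3 := by
          rw [← Real.exp_nat_mul]
          norm_num
        rw [h7]
        have h8 : (2.718 : ℝ) ^ 3 ≤ Real.exp 1 ^ 3 := pow_le_pow_left₀ (by norm_num) (by linarith) 3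
        norm_num at h8
        linarith
      calc Real.log 20 ≤ Real.log (Real.exp 3) := Real.log_le_log (by norm_num) h5
        _ = 3 := Real.log_exp 3
    linarith
  have hnh := log_x_le_nh hxy
  have hcl := (abs_le.1 (hc.close (Affine.Point.some xr yr hxy))).1
  nlinarith

private theorem B1_int {A B : ℤ} (C₀ : ℝ) (hh : Pt A B → ℝ) (hc : IsCan C₀ hh) (P : Pt A B)
    (x : ℤ) (hP : IsInt P x) (hx : 0 < x) (X : ℝ) (hX : X ≤ Real.log x)
    (hma : 10 ^ 6 * aa A B ≤ Real.exp X) :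
    Near P ∧ uu P ^ 2 ≤ 2 / Real.exp X ∧ |hh P - Real.log x| ≤ C₀ * ell A B := by
  obtain ⟨y, h, rfl⟩ := hP
  have ha := aa_ge A B
  have hx0 : (0 : ℝ) < x := by exact_mod_cast hx
  have hxm : Real.exp X ≤ x := by
    rw [← Real.exp_log hx0]
    exact Real.exp_le_exp.2 hX
  have hm : 0 < Real.exp X := Real.exp_pos X
  obtain ⟨h1, _, h3⟩ := near_int h (by linarith)
  refine ⟨h1, ?_, ?_⟩
  · rw [le_div_iff₀ hm]
    have := mul_le_mul_of_nonneg_right hxm
      (sq_nonneg (uu (Affine.Point.some (x : ℚ) (y : ℚ) h : Pt A B)))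
    linarith
  · have h4 := hc.close (Affine.Point.some (x : ℚ) (y : ℚ) h)
    rw [nh_int h] at h4
    have h5 : max |(x : ℝ)| 1 = x := by
      rw [abs_of_pos hx0]
      apply max_eq_left
      exact_mod_cast hx
    rw [h5] at h4
    exact h4

private theorem B1_fin (X p q T η η' : ℝ) (hX : 0 < X) (hη : 0 < η) (hη1 : η ≤ 1 / 100)
    (hη2 : 100 * η ≤ η') (hp1 : (1 - η) * X ≤ p)
    (hp2 : p ≤ (1 + 2 * η) * X) (hq1 : (1 - η) * X ≤ q) (hq2 : q ≤ (1 + 2 * η) * X)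
    (hT : |T| ≤ p + q - (1 - η) * X) : T ^ 2 ≤ (1 + η') * p * q := by
  have h1 : |T| ≤ (1 + 5 * η) * X := by nlinarith
  have h2 : T ^ 2 ≤ ((1 + 5 * η) * X) ^ 2 := by
    rw [← sq_abs]
    exact pow_le_pow_left₀ (abs_nonneg _) h1 2
  have h3 : ((1 - η) * X) * ((1 - η) * X) ≤ p * q := by
    have h4 : 0 ≤ (1 - η) * X := by
      apply mul_nonneg _ hX.le
      linarith
    exact mul_le_mul hp1 hq1 h4 (h4.trans hp1)
  have h5 : (1 + 5 * η) ^ 2 ≤ (1 + η') * (1 - η) ^ 2 := by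
    have h6 : (1 + 100 * η) * (1 - η) ^ 2 ≤ (1 + η') * (1 - η) ^ 2 :=
      mul_le_mul_of_nonneg_right (by linarith) (sq_nonneg _)
    have h7 : (1 + 5 * η) ^ 2 ≤ (1 + 100 * η) * (1 - η) ^ 2 := by
      have h8 : 0 ≤ η * (1 / 100 - η) := mul_nonneg hη.le (by linarith)
      have h9 : 0 ≤ η * (η * η) := by positivity
      nlinarith
    exact h7.trans h6
  have h10 : 0 ≤ X ^ 2 := sq_nonneg X
  have hη' : 0 < 1 + η' := by linarith
  calc T ^ 2 ≤ ((1 + 5 * η) * X) ^ 2 := h2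
    _ = (1 + 5 * η) ^ 2 * X ^ 2 := by ring
    _ ≤ ((1 + η') * (1 - η) ^ 2) * X ^ 2 := mul_le_mul_of_nonneg_right h5 h10
    _ = (1 + η') * (((1 - η) * X) * ((1 - η) * X)) := by ring
    _ ≤ (1 + η') * (p * q) := mul_le_mul_of_nonneg_left h3 hη'.le
    _ = (1 + η') * p * q := by ring

theorem angle_g (C₀ : ℝ) (hC₀ : 0 ≤ C₀) (η' : ℝ) (hη' : 0 < η') : ∃ η : ℝ, 0 < η ∧ ∃ M₀ : ℝ, 1 ≤ M₀ ∧
    ∀ A B : ℤ, ∀ hh : Pt A B → ℝ, IsCan C₀ hh →
    ∀ (P Q : Pt A B) (x y : ℤ), IsInt P x → IsInt Q y → x ≠ y → 0 < x → 0 < y →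
    ∀ X : ℝ, M₀ * ell A B ≤ X → X ≤ Real.log x → X ≤ Real.log y →
      Real.log x ≤ (1 + η) * X → Real.log y ≤ (1 + η) * X →
      0 < hh P ∧ 0 < hh Q ∧ (hh (P + Q) - hh P - hh Q) ^ 2 ≤ (1 + η') * hh P * hh Q := by
  obtain ⟨η, hηdef⟩ : ∃ η : ℝ, η = min η' 1 / 100 := ⟨_, rfl⟩
  have hmin : 0 < min η' 1 := lt_min hη' one_pos
  have hη : 0 < η := by
    rw [hηdef]
    positivity
  have hη1 : η ≤ 1 / 100 := by
    have := min_le_right η' 1
    rw [hηdef]
    linarith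
  have hη2 : 100 * η ≤ η' := by
    have := min_le_left η' 1
    rw [hηdef]
    linarith
  have hc0 : 100 ≤ 1000 * (C₀ + 6) + 100 := by nlinarith
  refine ⟨η, hη, (1000 * (C₀ + 6) + 100) / η, ?_, ?_⟩
  · rw [le_div_iff₀ hη]
    linarith
  intro A B hh hc P Q x y hP hQ hxy hx hy X hX hXx hXy hxX hyX
  have ha := aa_ge A B
  have hl := ell_ge A B
  have hX' : (1000 * (C₀ + 6) + 100) * ell A B ≤ η * X := by
    rw [div_mul_eq_mul_div, div_le_iff₀ hη] at hX
    linarith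
  have hce : 0 ≤ (C₀ + 6) * ell A B := by
    apply mul_nonneg <;> linarith
  have hηX : 1000 * ((C₀ + 6) * ell A B) + 100 * ell A B ≤ η * X := by linarith
  have hX0 : 0 < X := by
    by_contra hcon
    push Not at hcon
    have h1 : η * X ≤ 0 := mul_nonpos_of_nonneg_of_nonpos hη.le hcon
    linarith
  have hX100 : 100 * ell A B ≤ X := by nlinarith
  have hXc : 1000 * ((C₀ + 6) * ell A B) ≤ η * X := by linarith
  have hma : 10 ^ 6 * aa A B ≤ Real.exp X := by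
    have h1 : Real.exp (100 * ell A B) ≤ Real.exp X := Real.exp_le_exp.2 hX100
    have h2 : Real.exp (100 * ell A B) = aa A B ^ 100 := by
      rw [← exp_ell, ← Real.exp_nat_mul]
      norm_num
    have h3 : (2 : ℝ) ^ 99 ≤ aa A B ^ 99 := pow_le_pow_left₀ (by norm_num) ha 99
    have h4 : aa A B ^ 100 = aa A B ^ 99 * aa A B := pow_succ _ _
    have h5 : (10 : ℝ) ^ 6 ≤ 2 ^ 99 := by norm_num
    have h6 : 10 ^ 6 * aa A B ≤ aa A B ^ 99 * aa A B :=
      mul_le_mul_of_nonneg_right (h5.trans h3) (by linarith)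
    rw [← h4, ← h2] at h6
    exact h6.trans h1
  obtain ⟨nP, uP, cP⟩ := B1_int C₀ hh hc P x hP hx X hXx hma
  obtain ⟨nQ, uQ, cQ⟩ := B1_int C₀ hh hc Q y hQ hy X hXy hma
  have hne1 : P + Q ≠ 0 := by
    intro h
    have h1 : P = -Q := eq_neg_of_add_eq_zero_left h
    obtain ⟨y1, g1, rfl⟩ := hP
    obtain ⟨y2, g2, rfl⟩ := hQ
    rw [Affine.Point.neg_some] at h1
    have h2 := (Affine.Point.some.injEq _ _ _ _ _ _).mp h1
    exact hxy (by exact_mod_cast h2.1)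
  have hne2 : P + -Q ≠ 0 := by
    intro h
    have h1 : P = Q := by
      have := eq_neg_of_add_eq_zero_left h
      rwa [neg_neg] at this
    obtain ⟨y1, g1, rfl⟩ := hP
    obtain ⟨y2, g2, rfl⟩ := hQ
    have h2 := (Affine.Point.some.injEq _ _ _ _ _ _).mp h1
    exact hxy (by exact_mod_cast h2.1)
  have l1 := B1_low C₀ hh hc P Q X nP nQ uP uQ hma hne1
  have l2 := B1_low C₀ hh hc P (-Q) X nP (near_neg nQ) uP (by rw [uu_neg, neg_sq]; exact uQ) hma hne2
  rw [← sub_eq_add_neg] at l2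
  have hpar := hc.par P Q
  obtain ⟨cP1, cP2⟩ := abs_le.1 cP
  obtain ⟨cQ1, cQ2⟩ := abs_le.1 cQ
  have hCl : C₀ * ell A B ≤ (C₀ + 6) * ell A B := by nlinarith
  have hp1 : (1 - η) * X ≤ hh P := by linarith
  have hp2 : hh P ≤ (1 + 2 * η) * X := by linarith
  have hq1 : (1 - η) * X ≤ hh Q := by linarith
  have hq2 : hh Q ≤ (1 + 2 * η) * X := by linarith
  have hηX0 : 0 < (1 - η) * X := by
    apply mul_pos _ hX0
    linarith
  refine ⟨by linarith, by linarith, B1_fin X (hh P) (hh Q) _ η η' hX0 hη hη1 hη2 hp1 hp2 hq1 hq2 ?_⟩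
  rw [abs_le]
  constructor <;> linarith

end Pool.Agent.LibHV64
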