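import Pool.Agent.LibHV64.P3
import Pool.Agent.LibHV64.B1
import Pool.Agent.LibHU64.A4

/-!
ROW B2 (SHORT). The number of integral points of rank `≤ s` in a short window `[X, (1 + η) X]` is at most `kb s` (cites P3, B1 of LibHV64 and
LibHU64.A4 `gram_vec` as stated; compare `Pool/Agent/LibHU64/B2.lean`).

PLAN. `η₁` from `lines_bound s`, `η, M₀` from `angle_g C₀ _ (4 η₁)`. `n = 0`, `n = 1`: `kb_pos`. `n ≥ 2`: every `i` has a `j ≠ i`, so `0 < hh (P i)`; `gram_vec`: unit vectors `v` with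
`(hh (P i + P j) - hh (P i) - hh (P j)) ^ 2 = 4 hh (P i) hh (P j) (∑ v i a * v j a)²`, so `(∑ ..)² ≤ (1 + 4 η₁) / 4 = 1/4 + η₁`.
-/

set_option autoImplicit false

open WeierstrassCurve Pool.Agent.LibDP24 Pool.Agent.LibHU64

namespace Pool.Agent.LibHV64

theorem window_g (C₀ : ℝ) (hC₀ : 0 ≤ C₀) (s : ℕ) (hs : 1 ≤ s) : ∃ η : ℝ, 0 < η ∧ ∃ M₀ : ℝ, 1 ≤ M₀ ∧
    ∀ A B : ℤ, ∀ hh : Pt A B → ℝ, IsCan C₀ hh →
    ∀ X : ℝ, M₀ * ell A B ≤ X → ∀ (n : ℕ) (P : Fin n → Pt A B) (x : Fin n → ℤ),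
      (∀ i, IsInt (P i) (x i)) → Function.Injective x → RankLe s P →
      (∀ i, 0 < x i) → (∀ i, X ≤ Real.log (x i)) → (∀ i, Real.log (x i) ≤ (1 + η) * X) →
      n ≤ kb s := by
  obtain ⟨η₁, hη₁, hlines⟩ := lines_bound s hs
  obtain ⟨η, hη, M₀, hM₀, hang⟩ := angle_g C₀ hC₀ (4 * η₁) (by positivity)
  refine ⟨η, hη, M₀, hM₀, ?_⟩
  intro A B hh hcan X hX n P x hint hinj hrank hpos hlo hhi
  have hk := kb_pos hs
  rcases Nat.lt_or_ge n 2 with hn | hn
  · omega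
  · have hne : ∀ i j : Fin n, i ≠ j → x i ≠ x j := fun i j hij h => hij (hinj h)
    have hang' : ∀ i j : Fin n, i ≠ j → 0 < hh (P i) ∧ 0 < hh (P j) ∧
        (hh (P i + P j) - hh (P i) - hh (P j)) ^ 2 ≤ (1 + 4 * η₁) * hh (P i) * hh (P j) :=
      fun i j hij => hang A B hh hcan (P i) (P j) (x i) (x j) (hint i) (hint j) (hne i j hij)
        (hpos i) (hpos j) X hX (hlo i) (hlo j) (hhi i) (hhi j)
    have hp : ∀ i, 0 < hh (P i) := by
      intro i
      obtain ⟨j, hj⟩ : ∃ j : Fin n, i ≠ j := by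
        by_contra hcon
        push Not at hcon
        have h0 := hcon ⟨0, by omega⟩
        have h1 := hcon ⟨1, by omega⟩
        have h2 := h0.symm.trans h1
        simp at h2
      exact (hang' i j hj).1
    obtain ⟨v, hv1, hv⟩ := gram_vec hcan.par hcan.nonneg P hp hrank
    refine hlines n v hv1 fun i j hij => ?_
    have h1 := (hang' i j hij).2.2
    rw [hv i j] at h1
    have h2 : 0 < hh (P i) * hh (P j) := mul_pos (hp i) (hp j)
    have h3 : (∑ a, v i a * v j a) ^ 2 * (hh (P i) * hh (P j)) ≤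
        (1 / 4 + η₁) * (hh (P i) * hh (P j)) := by linarith
    exact le_of_mul_le_mul_right h3 h2

end Pool.Agent.LibHV64
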