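import Pool.Agent.LibHV64.L1
import Pool.Agent.LibHV64.B2
import Pool.Agent.LibHU64.C2

/-!
Fixed rank: at most `1 + 3 + 6 + 12 + ...` (`r` terms) large integral points.
-/

set_option autoImplicit false

open WeierstrassCurve Pool.Agent.LibDP24 Pool.Agent.LibHU64

namespace Pool.Agent.LibHV64

/-- one pair of constants for all ranks up to `r` -/
private theorem C1_win (C₀ : ℝ) (hC₀ : 0 ≤ C₀) (r : ℕ) : ∃ η : ℝ, 0 < η ∧ ∃ M₀ : ℝ, 1 ≤ M₀ ∧
    ∀ s, 1 ≤ s → s ≤ r → ∀ A B : ℤ, ∀ hh : Pt A B → ℝ, IsCan C₀ hh →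
    ∀ X : ℝ, M₀ * ell A B ≤ X → ∀ (n : ℕ) (P : Fin n → Pt A B) (x : Fin n → ℤ),
      (∀ i, IsInt (P i) (x i)) → Function.Injective x → RankLe s P →
      (∀ i, 0 < x i) → (∀ i, X ≤ Real.log (x i)) → (∀ i, Real.log (x i) ≤ (1 + η) * X) →
      n ≤ kb s := by
  induction r with
  | zero => exact ⟨1, one_pos, 1, le_rfl, fun s h1 h2 => by omega⟩
  | succ r ih =>
    obtain ⟨η₁, hη₁, M₁, hM₁, h₁⟩ := ih
    obtain ⟨η₂, hη₂, M₂, hM₂, h₂⟩ := window_g C₀ hC₀ (r + 1) (by omega)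
    refine ⟨min η₁ η₂, lt_min hη₁ hη₂, max M₁ M₂, hM₁.trans (le_max_left _ _), ?_⟩
    intro s hs1 hs2 A B hh hcan X hX n P x hP hx hrk hpos hlo hhi
    have hl := ell_ge A B
    have hX0 : 0 ≤ X := le_trans (by have : (0 : ℝ) ≤ max M₁ M₂ := by linarith [le_max_left M₁ M₂]
                                     positivity) hX
    rcases Nat.lt_or_ge s (r + 1) with h | h
    · refine h₁ s hs1 (by omega) A B hh hcan X (le_trans ?_ hX) n P x hP hx hrk hpos hlo fun i => (hhi i).trans ?_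
      · exact mul_le_mul_of_nonneg_right (le_max_left _ _) (by linarith)
      · exact mul_le_mul_of_nonneg_right (by linarith [min_le_left η₁ η₂]) hX0
    · have hsr : s = r + 1 := by omega
      subst hsr
      refine h₂ A B hh hcan X (le_trans ?_ hX) n P x hP hx hrk hpos hlo fun i => (hhi i).trans ?_
      · exact mul_le_mul_of_nonneg_right (le_max_right _ _) (by linarith)
      · exact mul_le_mul_of_nonneg_right (by linarith [min_le_right η₁ η₂]) hX0

theorem count_fixed (hPB : PB) (C₀ : ℝ) (hC₀ : 0 ≤ C₀) (r : ℕ) : ∃ K : ℝ, 1 ≤ K ∧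
    ∀ (A B : ℤ), 4 * A ^ 3 + 27 * B ^ 2 ≠ 0 → ∀ hh : Pt A B → ℝ, IsCan C₀ hh →
    ∀ (N : ℕ) (P : Fin N → Pt A B) (x : Fin N → ℤ),
      (∀ i, IsInt (P i) (x i)) → Function.Injective x → RankLe r P →
      (∀ i, Real.exp (K * ell A B) ≤ x i) → N ≤ ∑ s ∈ Finset.range r, kb (s + 1) := by
  obtain ⟨η, hη, M, hM, hwin⟩ := C1_win C₀ hC₀ r
  obtain ⟨D, hD, hcmp⟩ := compare_u hPB C₀ hC₀
  have hr0 : (0 : ℝ) ≤ r := Nat.cast_nonneg r
  have hDr : 0 ≤ D * ((r : ℝ) + 1) ^ 2 := by positivity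
  refine ⟨M + D * ((r : ℝ) + 1) ^ 2 * (1 + 1 / η), ?_, ?_⟩
  · have : 0 ≤ D * ((r : ℝ) + 1) ^ 2 * (1 + 1 / η) := by positivity
    linarith
  intro A B hdisc hh hcan N P x hP hx hrk hbig
  have hl := ell_ge A B
  have hl0 : 0 < ell A B := by linarith
  have hpos : ∀ i, (0 : ℝ) < x i := fun i => (Real.exp_pos _).trans_le (hbig i)
  have hlog : ∀ i, (M + D * ((r : ℝ) + 1) ^ 2 * (1 + 1 / η)) * ell A B ≤ Real.log (x i) := fun i =>
    (Real.le_log_iff_exp_le (hpos i)).2 (hbig i)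
  have hD1 : D * ((r : ℝ) + 1) ^ 2 ≤ D * ((r : ℝ) + 1) ^ 2 * (1 + 1 / η) := by
    have : (1 : ℝ) ≤ 1 + 1 / η := by
      have : 0 < 1 / η := by positivity
      linarith
    exact le_mul_of_one_le_right hDr this
  have hMl : ∀ i, M * ell A B ≤ Real.log (x i) := fun i => by
    refine le_trans (mul_le_mul_of_nonneg_right ?_ hl0.le) (hlog i)
    linarith
  have hDl : ∀ i, D * ((r : ℝ) + 1) ^ 2 * ell A B ≤ η * Real.log (x i) := fun i => by
    have h1 : D * ((r : ℝ) + 1) ^ 2 * (1 / η) * ell A B ≤ Real.log (x i) := by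
      refine le_trans (mul_le_mul_of_nonneg_right ?_ hl0.le) (hlog i)
      nlinarith
    have h2 := mul_le_mul_of_nonneg_left h1 hη.le
    calc D * ((r : ℝ) + 1) ^ 2 * ell A B = η * (D * ((r : ℝ) + 1) ^ 2 * (1 / η) * ell A B) := by
          field_simp
      _ ≤ _ := h2
  have hexp : ∀ s : ℕ, s ≤ r → ∀ i, Real.exp (D * ((s : ℝ) + 1) ^ 2 * ell A B) ≤ x i := by
    intro s hs i
    refine le_trans (Real.exp_le_exp.2 ?_) (hbig i)
    have hs' : (s : ℝ) ≤ r := by exact_mod_cast hs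
    have hs0 : (0 : ℝ) ≤ s := Nat.cast_nonneg s
    have h1 : ((s : ℝ) + 1) ^ 2 ≤ ((r : ℝ) + 1) ^ 2 := by gcongr
    have h2 : D * ((s : ℝ) + 1) ^ 2 ≤ D * ((r : ℝ) + 1) ^ 2 := mul_le_mul_of_nonneg_left h1 (by linarith)
    refine mul_le_mul_of_nonneg_right ?_ hl0.le
    linarith
  refine level_sum (c := 1 + η) P (fun i => Real.log (x i)) ?_ hrk kb ?_ ?_ ?_
  · intro i j hij
    have h1 : (x i : ℝ) = x j := Real.log_injOn_pos (hpos i) (hpos j) hij
    exact hx (by exact_mod_cast h1)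
  · -- one point is independent
    intro f
    by_contra hcon
    have heq : (Fin.cons (P (f 0)) (fun j : Fin 0 => j.elim0) : Fin (0 + 1) → Pt A B) = P ∘ f := by
      funext j
      have hj : j = 0 := Fin.ext (by have := j.2; omega)
      subst hj
      simp
    have h := hcmp 0 A B hdisc hh hcan (P (f 0)) (x (f 0)) (fun j : Fin 0 => j.elim0) (fun j : Fin 0 => j.elim0)
      (hP _) (fun j => j.elim0) (hexp 0 (Nat.zero_le _) _) (fun j => j.elim0) linearIndependent_empty_type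
      (by rw [heq]; exact hcon)
      (Real.exp (D * (((0 : ℕ) : ℝ) + 1) ^ 2 * ell A B) * (x (f 0) : ℝ) + 1) (fun j => j.elim0)
    linarith
  · intro s i f hs hind hdep t ht
    have h := hcmp s A B hdisc hh hcan (P i) (x i) (P ∘ f) (x ∘ f) (hP _) (fun k => hP _) (hexp s hs i)
      (fun k => hexp s hs _) hind hdep (x t) (fun k => by
        have h1 := ht k
        exact (Real.log_le_log_iff (hpos t) (hpos (f k))).1 h1)
    have h1 := Real.log_le_log (hpos t) h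
    rw [Real.log_mul (Real.exp_pos _).ne' (hpos i).ne', Real.log_exp] at h1
    have hs' : (s : ℝ) ≤ r := by exact_mod_cast hs
    have hs0 : (0 : ℝ) ≤ s := Nat.cast_nonneg s
    have h2 : ((s : ℝ) + 1) ^ 2 ≤ ((r : ℝ) + 1) ^ 2 := by gcongr
    have h3 : D * ((s : ℝ) + 1) ^ 2 * ell A B ≤ D * ((r : ℝ) + 1) ^ 2 * ell A B :=
      mul_le_mul_of_nonneg_right (mul_le_mul_of_nonneg_left h2 (by linarith)) hl0.le
    have h4 := hDl i
    change Real.log (x t) ≤ (1 + η) * Real.log (x i)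
    linarith
  · intro s i m e h1s hs he hr h1 h2
    refine hwin s h1s hs A B hh hcan (Real.log (x i)) (hMl i) m (P ∘ e) (x ∘ e) (fun k => hP _) (hx.comp he) hr
      (fun k => ?_) h1 h2
    have := hpos (e k)
    exact_mod_cast this

end Pool.Agent.LibHV64
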