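import Pool.Agent.LibHV64.C1
import Pool.Agent.LibHU64.D3

/-!
ROW C2 (SHORT). Every rank, absolute constant (cites C1 `count_fixed` and LibHU64: D1 `count_high`, D2 `count_mid` as stated; compare `Pool/Agent/LibHU64/D3.lean`, copy it).

PLAN. As in `Pool/Agent/LibHU64/D3.lean` there are `M₀` and `r₀` such that for `r ≥ r₀` and `x ≥ exp (M₀ ell)`: `N ≤ r pk r + C (r+1) pk r ≤ 6 C (r+1)³ 2^(5r/6) ≤ 3 * 2 ^ r / 2 - 2` (its proof
shows `N + r + 2 ≤ 2 ^ (r + 1)` for `r ≥ r₀`; here one needs `2^(r/6)` to beat `4 C' (r+1)³`, same argument; or apply the SAME limit with another constant). For `r < r₀`: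
`count_fixed r` with constant `K_r`, `kb_sum`. `M = M₀ + ∑ r < r₀, K_r`.
-/

set_option autoImplicit false

open WeierstrassCurve Pool.Agent.LibDP24 Pool.Agent.LibHU64

namespace Pool.Agent.LibHV64

private theorem C2_sub {G : Type*} [AddCommGroup G] {r N n : ℕ} {P : Fin N → G} (h : RankLe r P)
    (g : Fin n → Fin N) : RankLe r (fun i => P (g i)) := fun f => h (fun i => g (f i))

/-- Polynomials are smaller than `2 ^ (r / 6)`. -/
private theorem C2_num (C : ℝ) (hC : 1 ≤ C) : ∃ r₀ : ℕ, ∀ r : ℕ, r₀ ≤ r →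
    2 * C * ((r : ℝ) + 1) * pk r + 2 ≤ 3 / 2 * (2 : ℝ) ^ r := by
  have hb : (1 : ℝ) < (2 : ℝ) ^ (1 / 6 : ℝ) := Real.one_lt_rpow one_lt_two (by norm_num)
  have h1 := tendsto_pow_const_div_const_pow_of_one_lt 3 hb
  have hpos : (0 : ℝ) < 1 / (8 * (6 * C + 2)) := by positivity
  have h2 := (h1.eventually_lt_const hpos).and (Filter.eventually_ge_atTop 1)
  obtain ⟨r₀, hr₀⟩ := Filter.eventually_atTop.1 h2
  refine ⟨r₀, fun r hr => ?_⟩
  obtain ⟨h3, h4⟩ := hr₀ r hr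
  have hr1 : (1 : ℝ) ≤ r := by exact_mod_cast h4
  have hb0 : (0 : ℝ) < ((2 : ℝ) ^ (1 / 6 : ℝ)) ^ r := by positivity
  rw [div_lt_div_iff₀ hb0 (by positivity)] at h3
  have e1 : ((2 : ℝ) ^ (1 / 6 : ℝ)) ^ r * (2 : ℝ) ^ (5 / 6 * (r : ℝ)) = (2 : ℝ) ^ r := by
    rw [← Real.rpow_natCast, ← Real.rpow_mul two_pos.le, ← Real.rpow_add two_pos,
      ← Real.rpow_natCast]
    congr 1
    ring
  obtain ⟨Q, hQ⟩ : ∃ Q : ℝ, Q = (2 : ℝ) ^ (5 / 6 * (r : ℝ)) := ⟨_, rfl⟩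
  obtain ⟨b, hb'⟩ : ∃ b : ℝ, b = ((2 : ℝ) ^ (1 / 6 : ℝ)) ^ r := ⟨_, rfl⟩
  have hQ1 : 1 ≤ Q := by
    rw [hQ]
    exact Real.one_le_rpow one_le_two (by positivity)
  unfold pk
  rw [← hQ, ← hb'] at e1
  rw [← hb'] at h3 hb0
  rw [← hQ, ← e1]
  have h5 : ((r : ℝ) + 1) ^ 3 ≤ 8 * (r : ℝ) ^ 3 := by
    have : (r : ℝ) + 1 ≤ 2 * r := by linarith
    calc ((r : ℝ) + 1) ^ 3 ≤ (2 * (r : ℝ)) ^ 3 := pow_le_pow_left₀ (by linarith) this 3
      _ = 8 * (r : ℝ) ^ 3 := by ring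
  have h6 : (6 * C + 2) * ((r : ℝ) + 1) ^ 3 ≤ b := by
    have := mul_le_mul_of_nonneg_left h5 (by linarith : (0 : ℝ) ≤ 6 * C + 2)
    nlinarith
  have h8 : (2 : ℝ) ≤ 2 * ((r : ℝ) + 1) ^ 3 * Q := by
    have h7 : (1 : ℝ) ≤ ((r : ℝ) + 1) ^ 3 := one_le_pow₀ (by linarith)
    have h7' := mul_le_mul h7 hQ1 zero_le_one (by positivity)
    linarith
  have h9 := mul_le_mul_of_nonneg_right h6 (by linarith : (0 : ℝ) ≤ Q)
  have h10 : 0 ≤ b * Q := by positivity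
  nlinarith

/-- large rank -/
private theorem C2_large (hPB : PB) (C₀ : ℝ) (hC₀ : 0 ≤ C₀) : ∃ M₀ : ℝ, 1 ≤ M₀ ∧ ∃ r₀ : ℕ,
    ∀ r : ℕ, r₀ ≤ r → ∀ (A B : ℤ), 4 * A ^ 3 + 27 * B ^ 2 ≠ 0 → ∀ hh : Pt A B → ℝ, IsCan C₀ hh →
    ∀ (N : ℕ) (P : Fin N → Pt A B) (x : Fin N → ℤ),
      (∀ i, IsInt (P i) (x i)) → Function.Injective x → RankLe r P →
      (∀ i, Real.exp (M₀ * ell A B) ≤ x i) → N ≤ 3 * 2 ^ r / 2 - 2 := by
  classical
  obtain ⟨D, hD1, H1⟩ := count_high hPB C₀ hC₀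
  obtain ⟨M₀, hM1, H2⟩ := count_mid C₀ hC₀
  obtain ⟨C, hC1, H2⟩ := H2 D hD1
  obtain ⟨r₀, hr₀⟩ := C2_num C hC1
  refine ⟨M₀, hM1, r₀, fun r hr A B hAB hh hcan N P x hP hx hrk hlow => ?_⟩
  have hpk : 3 ≤ pk r := pk_ge r
  have hr0 : (0 : ℝ) ≤ r := Nat.cast_nonneg r
  obtain ⟨S, hS⟩ : ∃ S : Finset (Fin N), ∀ i, i ∈ S ↔
      (x i : ℝ) < Real.exp (D * ((r : ℝ) + 1) ^ 2 * ell A B) :=
    ⟨Finset.univ.filter fun i => (x i : ℝ) < Real.exp (D * ((r : ℝ) + 1) ^ 2 * ell A B),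
      fun i => by simp⟩
  have hcard : S.card + Sᶜ.card = N := by
    rw [Finset.card_add_card_compl, Fintype.card_fin]
  have h1 : (S.card : ℝ) ≤ C * ((r : ℝ) + 1) * pk r := by
    refine H2 r A B hh hcan S.card (fun i => P (S.equivFin.symm i)) (fun i => x (S.equivFin.symm i))
      (fun i => hP _) ?_ (C2_sub hrk _) (fun i => hlow _) ?_
    · intro i j hij
      exact S.equivFin.symm.injective (Subtype.ext (hx hij))
    · intro i
      exact (hS _).1 (S.equivFin.symm i).2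
  have h2 : (Sᶜ.card : ℝ) ≤ r * pk r := by
    refine H1 r A B hAB hh hcan Sᶜ.card (fun i => P (Sᶜ.equivFin.symm i))
      (fun i => x (Sᶜ.equivFin.symm i)) (fun i => hP _) ?_ (C2_sub hrk _) ?_
    · intro i j hij
      exact Sᶜ.equivFin.symm.injective (Subtype.ext (hx hij))
    · intro i
      have h3 := Finset.mem_compl.1 (Sᶜ.equivFin.symm i).2
      exact not_lt.1 fun h4 => h3 ((hS _).2 h4)
  have h3 := hr₀ r hr
  have h4 : (N : ℝ) = S.card + Sᶜ.card := by exact_mod_cast hcard.symm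
  have h5 : (r : ℝ) * pk r ≤ C * ((r : ℝ) + 1) * pk r := by
    refine mul_le_mul_of_nonneg_right ?_ (by linarith)
    nlinarith
  have h6 : 2 * ((N : ℝ) + 2) ≤ 3 * (2 : ℝ) ^ r := by linarith
  have h7 : 2 * (N + 2) ≤ 3 * 2 ^ r := by exact_mod_cast h6
  omega


theorem count_every (hPB : PB) (C₀ : ℝ) (hC₀ : 0 ≤ C₀) : ∃ M : ℝ, 1 ≤ M ∧
    ∀ (r : ℕ) (A B : ℤ), 4 * A ^ 3 + 27 * B ^ 2 ≠ 0 → ∀ hh : Pt A B → ℝ, IsCan C₀ hh →
    ∀ (N : ℕ) (P : Fin N → Pt A B) (x : Fin N → ℤ),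
      (∀ i, IsInt (P i) (x i)) → Function.Injective x → RankLe r P →
      (∀ i, Real.exp (M * ell A B) ≤ x i) → N ≤ 3 * 2 ^ r / 2 - 2 := by
  classical
  obtain ⟨M₀, hM1, r₀, H⟩ := C2_large hPB C₀ hC₀
  choose K hK1 hK using fun r : ℕ => count_fixed hPB C₀ hC₀ r
  have hsum : 0 ≤ ∑ s ∈ Finset.range r₀, K s :=
    Finset.sum_nonneg fun s _ => zero_le_one.trans (hK1 s)
  refine ⟨M₀ + ∑ s ∈ Finset.range r₀, K s, by linarith, ?_⟩
  intro r A B hAB hh hcan N P x hP hx hrk hlow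
  have hl : 0 < ell A B := by
    have := ell_ge A B
    linarith
  rcases le_or_gt r₀ r with hr | hr
  · refine H r hr A B hAB hh hcan N P x hP hx hrk fun i => le_trans ?_ (hlow i)
    refine Real.exp_le_exp.mpr (mul_le_mul_of_nonneg_right ?_ hl.le)
    linarith
  · rw [← kb_sum]
    refine hK r A B hAB hh hcan N P x hP hx hrk fun i => le_trans ?_ (hlow i)
    refine Real.exp_le_exp.mpr (mul_le_mul_of_nonneg_right ?_ hl.le)
    have h1 : K r ≤ ∑ s ∈ Finset.range r₀, K s :=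
      Finset.single_le_sum (f := K) (fun s _ => zero_le_one.trans (hK1 s))
        (Finset.mem_range.2 hr)
    linarith

end Pool.Agent.LibHV64
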