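import Mathlib

/-!
MP_a1107e_nt, sharper number of exceptional pairs: the bound `0, 1, 3, 6, 12, 24, 48, ...` for the points of one level.
-/

set_option autoImplicit false

namespace Pool.Agent.LibHV64

/-- `0, 1, 3, 6, 12, 24, 48, ...`: bound for the number of lines of `ℝ ^ s` with pairwise angles at least `60` degrees -/
def kb (s : ℕ) : ℕ := if s ≤ 1 then s else 3 * 2 ^ (s - 2)

theorem kb_succ_succ (s : ℕ) : kb (s + 2) = 3 * 2 ^ s := by
  simp [kb]

theorem kb_pos {s : ℕ} (hs : 1 ≤ s) : 1 ≤ kb s := by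
  unfold kb
  split_ifs with h
  · exact hs
  · have : 1 ≤ 2 ^ (s - 2) := Nat.one_le_two_pow
    omega

/-- `1 + 3 + 6 + ... = 3 * 2 ^ (r - 1) - 2` -/
theorem kb_sum (r : ℕ) : ∑ s ∈ Finset.range r, kb (s + 1) = 3 * 2 ^ r / 2 - 2 := by
  rcases r with _ | r
  · simp
  · have h : ∑ s ∈ Finset.range (r + 1), kb (s + 1) + 2 = 3 * 2 ^ r := by
      induction r with
      | zero => simp [kb]
      | succ r ih =>
        rw [Finset.sum_range_succ, add_right_comm, ih, kb_succ_succ, pow_succ]
        ring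
    have h2 : 3 * 2 ^ (r + 1) / 2 = 3 * 2 ^ r := by
      rw [pow_succ, ← mul_assoc]
      exact Nat.mul_div_cancel _ (by norm_num)
    omega

end Pool.Agent.LibHV64
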