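import Pool.Agent.LibHV64.C2
import Pool.Agent.LibHU64.E1

/-!
ROW E1 (SHORT: a copy of the case `r ≥ r₀` of `Pool/Agent/LibHU64/E1.lean`). The theorem (cites C2 `count_every`, LibDP24 H2 `exists_can` as stated).

PLAN. `C₀` from `exists_can`, `M₀` from `count_every`; `K = 4 ^ (2 M₀ + 1)`, `M = 2 M₀ + 1`; then literally as for `r ≥ r₀` in `Pool/Agent/LibHU64/E1.lean` (copy its private
lemmas), with `N ≤ 3 * 2 ^ r / 2 - 2` instead of `N + r + 2 ≤ 2 ^ (r + 1)`, for all `r`.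
-/

set_option autoImplicit false

open WeierstrassCurve Pool.Agent.LibDP24 Pool.Agent.LibHU64

namespace Pool.Agent.LibHV64

private theorem E1_indep {A B : ℤ} {r : ℕ} (Γ : AddSubgroup (Pt A B)) (hr : Module.rank ℤ Γ ≤ r)
    {N : ℕ} (P : Fin N → Pt A B) (hP : ∀ i, P i ∈ Γ) (f : Fin (r + 1) → Fin N) :
    ¬ LinearIndependent ℤ (P ∘ f) := by
  intro hli
  have h1 : LinearIndependent ℤ (fun i : Fin (r + 1) => (⟨P (f i), hP (f i)⟩ : Γ)) := by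
    apply LinearIndependent.of_comp (Γ.subtype.toIntLinearMap)
    exact hli
  have h2 := h1.cardinal_le_rank
  have h3 : ((r + 1 : ℕ) : Cardinal) ≤ ((r : ℕ) : Cardinal) := by
    refine le_trans ?_ (h2.trans hr)
    simp
  have h4 : r + 1 ≤ r := by exact_mod_cast h3
  omega

private theorem E1_aa {A B : ℤ} (hD : 4 * A ^ 3 + 27 * B ^ 2 ≠ 0) :
    aa A B ≤ 4 * max |(A : ℝ)| |(B : ℝ)| := by
  have h1 : (1 : ℝ) ≤ max |(A : ℝ)| |(B : ℝ)| := by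
    by_cases hA : A = 0
    · have hB : B ≠ 0 := by
        rintro rfl
        apply hD
        rw [hA]
        norm_num
      have h2 : (1 : ℤ) ≤ |B| := Int.one_le_abs hB
      have h3 : (1 : ℝ) ≤ |(B : ℝ)| := by exact_mod_cast h2
      exact h3.trans (le_max_right _ _)
    · have h2 : (1 : ℤ) ≤ |A| := Int.one_le_abs hA
      have h3 : (1 : ℝ) ≤ |(A : ℝ)| := by exact_mod_cast h2
      exact h3.trans (le_max_left _ _)
  have hA := le_max_left |(A : ℝ)| |(B : ℝ)|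
  have hB := le_max_right |(A : ℝ)| |(B : ℝ)|
  unfold aa
  linarith

private theorem E1_eqn {A B x y : ℤ} (h : (E A B).toAffine.Nonsingular (x : ℚ) (y : ℚ)) :
    y ^ 2 = x ^ 3 + A * x + B := by
  have h1 := (Affine.equation_iff _ _).1 h.1
  simp at h1
  exact_mod_cast h1

private theorem E1_bound {A B x y : ℤ} {K' : ℝ} (hK' : 1 ≤ K')
    (hD : 4 * A ^ 3 + 27 * B ^ 2 ≠ 0)
    (hE : y ^ 2 = x ^ 3 + A * x + B) (hx : (x : ℝ) < aa A B ^ K') :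
    max |(x : ℝ)| |(y : ℝ)| ≤
      (4 : ℝ) ^ (2 * K' + 1) * (max |(A : ℝ)| |(B : ℝ)|) ^ (2 * K' + 1) := by
  have ha := aa_ge A B
  have ha0 : (0 : ℝ) < aa A B := by linarith
  have h1 : aa A B ≤ aa A B ^ K' := by
    calc aa A B = aa A B ^ (1 : ℝ) := (Real.rpow_one _).symm
      _ ≤ aa A B ^ K' := Real.rpow_le_rpow_of_exponent_le (by linarith) hK'
  have h2 := x_ge hE
  have h3 : |(x : ℝ)| ≤ aa A B ^ K' := by
    rw [abs_le]
    constructor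
    · linarith
    · exact hx.le
  have h4 : max |(x : ℝ)| 1 ≤ aa A B ^ K' := _root_.max_le h3 (by linarith)
  have h5 := Pool.Agent.LibDP24.max_le hE
  have h6 : (max |(x : ℝ)| 1) ^ 2 ≤ (aa A B ^ K') ^ 2 :=
    pow_le_pow_left₀ (le_trans zero_le_one (le_max_right _ _)) h4 2
  have h7 : aa A B * (aa A B ^ K') ^ 2 = aa A B ^ (2 * K' + 1) := by
    rw [Real.rpow_add ha0, Real.rpow_one, mul_comm (2 : ℝ) K', Real.rpow_mul ha0.le,
      Real.rpow_two, mul_comm]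
  have h8 : aa A B ^ (2 * K' + 1) ≤ (4 * max |(A : ℝ)| |(B : ℝ)|) ^ (2 * K' + 1) :=
    Real.rpow_le_rpow ha0.le (E1_aa hD) (by linarith)
  rw [Real.mul_rpow (by norm_num) (le_trans (abs_nonneg _) (le_max_left _ _))] at h8
  calc max |(x : ℝ)| |(y : ℝ)| ≤ aa A B * (max |(x : ℝ)| 1) ^ 2 := h5
    _ ≤ aa A B * (aa A B ^ K') ^ 2 := mul_le_mul_of_nonneg_left h6 ha0.le
    _ = aa A B ^ (2 * K' + 1) := h7
    _ ≤ _ := h8

private theorem E1_one {A B : ℤ} (hD : 4 * A ^ 3 + 27 * B ^ 2 ≠ 0) :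
    (1 : ℝ) ≤ max |(A : ℝ)| |(B : ℝ)| := by
  by_cases hA : A = 0
  · have hB : B ≠ 0 := by
      rintro rfl
      apply hD
      rw [hA]
      norm_num
    have h2 : (1 : ℤ) ≤ |B| := Int.one_le_abs hB
    have h3 : (1 : ℝ) ≤ |(B : ℝ)| := by exact_mod_cast h2
    exact h3.trans (le_max_right _ _)
  · have h2 : (1 : ℤ) ≤ |A| := Int.one_le_abs hA
    have h3 : (1 : ℝ) ≤ |(A : ℝ)| := by exact_mod_cast h2
    exact h3.trans (le_max_left _ _)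

private theorem E1_large {C₀ M₀ : ℝ} {r : ℕ} (hM₀ : 1 ≤ M₀)
    (hcan : ∀ A B : ℤ, 4 * A ^ 3 + 27 * B ^ 2 ≠ 0 → ∃ hh : Pt A B → ℝ, IsCan C₀ hh)
    (hcount : ∀ (A B : ℤ), 4 * A ^ 3 + 27 * B ^ 2 ≠ 0 → ∀ hh : Pt A B → ℝ, IsCan C₀ hh →
    ∀ (N : ℕ) (P : Fin N → Pt A B) (x : Fin N → ℤ),
      (∀ i, IsInt (P i) (x i)) → Function.Injective x → RankLe r P →
      (∀ i, Real.exp (M₀ * ell A B) ≤ x i) → N ≤ 3 * 2 ^ r / 2 - 2) (A B : ℤ)
    (hD : 4 * A ^ 3 + 27 * B ^ 2 ≠ 0) (Γ : AddSubgroup (Pt A B)) (hr : Module.rank ℤ Γ ≤ r) :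
      {x : ℤ | ∃ (y : ℤ) (h : (E A B).toAffine.Nonsingular (x : ℚ) (y : ℚ)),
        (Affine.Point.some (x : ℚ) (y : ℚ) h : Pt A B) ∈ Γ ∧
        (4 : ℝ) ^ (2 * M₀ + 1) * (max |(A : ℝ)| |(B : ℝ)|) ^ (2 * M₀ + 1) <
          max |(x : ℝ)| |(y : ℝ)|}.Finite ∧
      {x : ℤ | ∃ (y : ℤ) (h : (E A B).toAffine.Nonsingular (x : ℚ) (y : ℚ)),
        (Affine.Point.some (x : ℚ) (y : ℚ) h : Pt A B) ∈ Γ ∧
        (4 : ℝ) ^ (2 * M₀ + 1) * (max |(A : ℝ)| |(B : ℝ)|) ^ (2 * M₀ + 1) <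
          max |(x : ℝ)| |(y : ℝ)|}.ncard ≤ 3 * 2 ^ r / 2 - 2 := by
  set V : Set ℤ := {x : ℤ | ∃ (y : ℤ) (h : (E A B).toAffine.Nonsingular (x : ℚ) (y : ℚ)),
        (Affine.Point.some (x : ℚ) (y : ℚ) h : Pt A B) ∈ Γ ∧
        (4 : ℝ) ^ (2 * M₀ + 1) * (max |(A : ℝ)| |(B : ℝ)|) ^ (2 * M₀ + 1) <
          max |(x : ℝ)| |(y : ℝ)|} with hV
  have key : ∀ W : Finset ℤ, (W : Set ℤ) ⊆ V → W.card ≤ 3 * 2 ^ r / 2 - 2 := by
    intro W hWV
    have hW : ∀ x ∈ W, ∃ (y : ℤ) (h : (E A B).toAffine.Nonsingular (x : ℚ) (y : ℚ)),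
        (Affine.Point.some (x : ℚ) (y : ℚ) h : Pt A B) ∈ Γ ∧
        Real.exp (M₀ * ell A B) ≤ x := by
      intro x hx
      obtain ⟨y, h, hy, hlt⟩ := hWV hx
      refine ⟨y, h, hy, ?_⟩
      have h1 : aa A B ^ M₀ = Real.exp (M₀ * ell A B) := by
        rw [← exp_ell A B, ← Real.exp_mul, mul_comm]
      rw [← h1]
      by_contra hcon
      exact absurd (E1_bound hM₀ hD (E1_eqn h) (not_le.1 hcon)) (not_le.2 hlt)
    choose! y h hyh hge using hW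
    obtain ⟨hh, hcc⟩ := hcan A B hD
    let e : Fin W.card ≃ W := W.equivFin.symm
    let P : Fin W.card → Pt A B := fun i =>
      Affine.Point.some ((e i : ℤ) : ℚ) ((y (e i) : ℤ) : ℚ) (h (e i) (e i).2)
    exact hcount A B hD hh hcc W.card P (fun i => (e i : ℤ))
      (fun i => ⟨y (e i), h (e i) (e i).2, rfl⟩)
      (fun i j hij => e.injective (Subtype.ext hij))
      (E1_indep Γ hr P (fun i => hyh (e i) (e i).2))
      (fun i => hge (e i) (e i).2)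
  have hfin : V.Finite := by
    by_contra hinf
    obtain ⟨W, hWV, hWc⟩ := Set.Infinite.exists_subset_card_eq hinf (3 * 2 ^ r / 2 - 2 + 1)
    have := key W hWV
    omega
  refine ⟨hfin, ?_⟩
  have h1 := key hfin.toFinset (by simp)
  rwa [← Set.ncard_eq_toFinset_card V hfin] at h1

theorem finalV (hPB : PB) : ∃ K M : ℝ, 0 < K ∧ 0 < M ∧ ∀ (r : ℕ) (A B : ℤ),
    4 * A ^ 3 + 27 * B ^ 2 ≠ 0 → ∀ Γ : AddSubgroup (Pt A B), Module.rank ℤ Γ ≤ r →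
      {x : ℤ | ∃ (y : ℤ) (h : (E A B).toAffine.Nonsingular (x : ℚ) (y : ℚ)),
        (Affine.Point.some (x : ℚ) (y : ℚ) h : Pt A B) ∈ Γ ∧
        K * (max |(A : ℝ)| |(B : ℝ)|) ^ M < max |(x : ℝ)| |(y : ℝ)|}.Finite ∧
      {x : ℤ | ∃ (y : ℤ) (h : (E A B).toAffine.Nonsingular (x : ℚ) (y : ℚ)),
        (Affine.Point.some (x : ℚ) (y : ℚ) h : Pt A B) ∈ Γ ∧
        K * (max |(A : ℝ)| |(B : ℝ)|) ^ M < max |(x : ℝ)| |(y : ℝ)|}.ncard ≤ 3 * 2 ^ r / 2 - 2 := by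
  obtain ⟨C₀, hC₀, hcan⟩ := exists_can
  obtain ⟨M₀, hM₀, hcount⟩ := count_every hPB C₀ (by linarith)
  refine ⟨(4 : ℝ) ^ (2 * M₀ + 1), 2 * M₀ + 1, by positivity, by linarith, ?_⟩
  intro r A B hD Γ hr
  exact E1_large hM₀ (fun A B hD => hcan A B hD) (fun A B hD => hcount r A B hD) A B hD Γ hr

end Pool.Agent.LibHV64
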