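import Pool.Agent.LibHV64.Defs

/-!
ROW P2 (SHORT, pure arithmetic). The linear programming bound with `cos² ≤ 1/4` is at most `3 * 2 ^ (s - 2)`.
-/

set_option autoImplicit false

namespace Pool.Agent.LibHV64

private theorem P2_shift (s n : ℕ) :
    s * (s + 2) * (s + 4) * ∏ k ∈ Finset.range n, (s + 6 + 2 * k) =
      ∏ k ∈ Finset.range (n + 3), (s + 2 * k) := by
  rw [Finset.prod_range_succ', Finset.prod_range_succ', Finset.prod_range_succ']
  have h : ∏ k ∈ Finset.range n, (s + 2 * (k + 1 + 1 + 1)) = ∏ k ∈ Finset.range n, (s + 6 + 2 * k) := by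
    apply Finset.prod_congr rfl
    intro k _
    ring
  rw [h]
  ring

private theorem P2_poly (a t : ℕ) (ht : t ≤ 5) :
    (6 * a + 4 + t + 2 * (a + 2)) * (6 * a + 4 + t + 2 * (a + 3)) * (6 * a + 4 + t + 2 * (a + 4)) *
        (6 * a + 4 + t + 2 * (a + 5)) ≤
      64 * (2 * (a + 1) + 1) * ((6 * a + 4 + t) * (6 * a + 4 + t + 2) * (6 * a + 4 + t + 4)) := by
  interval_cases t <;> ring_nf <;> gcongr <;> norm_num

private theorem P2_main (a t : ℕ) (ht : t ≤ 5) :
    3 * ∏ k ∈ Finset.range (a + 2), (6 * a + 4 + t + 2 * k) ≤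
      3 * 2 ^ (6 * a + 2 + t) * (∏ k ∈ Finset.range (a + 1), (2 * k + 1)) * (6 - t) := by
  induction a with
  | zero =>
    interval_cases t <;> simp [Finset.prod_range_succ]
  | succ a ih =>
    have hpos : 0 < (6 * a + 4 + t) * (6 * a + 4 + t + 2) * (6 * a + 4 + t + 4) := by positivity
    have h1 : (6 * a + 4 + t) * (6 * a + 4 + t + 2) * (6 * a + 4 + t + 4) *
        ∏ k ∈ Finset.range (a + 1 + 2), (6 * (a + 1) + 4 + t + 2 * k) =
        (∏ k ∈ Finset.range (a + 2), (6 * a + 4 + t + 2 * k)) *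
          ((6 * a + 4 + t + 2 * (a + 2)) * (6 * a + 4 + t + 2 * (a + 3)) * (6 * a + 4 + t + 2 * (a + 4)) *
        (6 * a + 4 + t + 2 * (a + 5))) := by
      have h2 := P2_shift (6 * a + 4 + t) (a + 1 + 2)
      have h3 : ∏ k ∈ Finset.range (a + 1 + 2), (6 * (a + 1) + 4 + t + 2 * k) =
          ∏ k ∈ Finset.range (a + 1 + 2), (6 * a + 4 + t + 6 + 2 * k) := by
        apply Finset.prod_congr rfl
        intro k _
        ring
      rw [h3, h2]
      have h4 : a + 1 + 2 + 3 = a + 2 + 1 + 1 + 1 + 1 := by ring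
      rw [h4, Finset.prod_range_succ, Finset.prod_range_succ, Finset.prod_range_succ, Finset.prod_range_succ]
      ring
    have h5 := P2_poly a t ht
    refine Nat.le_of_mul_le_mul_left ?_ hpos
    calc (6 * a + 4 + t) * (6 * a + 4 + t + 2) * (6 * a + 4 + t + 4) *
          (3 * ∏ k ∈ Finset.range (a + 1 + 2), (6 * (a + 1) + 4 + t + 2 * k))
        = 3 * ((6 * a + 4 + t) * (6 * a + 4 + t + 2) * (6 * a + 4 + t + 4) *
          ∏ k ∈ Finset.range (a + 1 + 2), (6 * (a + 1) + 4 + t + 2 * k)) := by ring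
      _ = (3 * ∏ k ∈ Finset.range (a + 2), (6 * a + 4 + t + 2 * k)) *
          ((6 * a + 4 + t + 2 * (a + 2)) * (6 * a + 4 + t + 2 * (a + 3)) * (6 * a + 4 + t + 2 * (a + 4)) *
        (6 * a + 4 + t + 2 * (a + 5))) := by rw [h1]; ring
      _ ≤ (3 * 2 ^ (6 * a + 2 + t) * (∏ k ∈ Finset.range (a + 1), (2 * k + 1)) * (6 - t)) *
          (64 * (2 * (a + 1) + 1) * ((6 * a + 4 + t) * (6 * a + 4 + t + 2) * (6 * a + 4 + t + 4))) :=
        Nat.mul_le_mul ih h5
      _ = (6 * a + 4 + t) * (6 * a + 4 + t + 2) * (6 * a + 4 + t + 4) *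
          (3 * 2 ^ (6 * (a + 1) + 2 + t) * (∏ k ∈ Finset.range (a + 1 + 1), (2 * k + 1)) * (6 - t)) := by
        rw [Finset.prod_range_succ (fun k => 2 * k + 1) (a + 1)]
        have h6 : 2 ^ (6 * (a + 1) + 2 + t) = 64 * 2 ^ (6 * a + 2 + t) := by
          have : 6 * (a + 1) + 2 + t = 6 * a + 2 + t + 6 := by ring
          rw [this, pow_add]
          norm_num
          ring
        rw [h6]
        ring

theorem lp_numbers (s : ℕ) (hs : 1 ≤ s) : ∃ m : ℕ, s < 6 * (m + 1) + 4 ∧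
    3 * ∏ k ∈ Finset.range (m + 2), (s + 2 * k) <
      (kb s + 1) * (∏ k ∈ Finset.range (m + 1), (2 * k + 1)) * (6 * (m + 1) + 4 - s) := by
  rcases Nat.lt_or_ge s 4 with h4 | h4
  · refine ⟨0, by omega, ?_⟩
    interval_cases s <;> simp [kb, Finset.prod_range_succ]
  · obtain ⟨a, t, ht, hst⟩ : ∃ a t : ℕ, t ≤ 5 ∧ s = 6 * a + 4 + t :=
      ⟨(s - 4) / 6, (s - 4) % 6, by omega, by omega⟩
    subst hst
    refine ⟨a, by omega, ?_⟩
    have h1 := P2_main a t ht
    have h2 : 6 * (a + 1) + 4 - (6 * a + 4 + t) = 6 - t := by omega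
    have h3 : kb (6 * a + 4 + t) = 3 * 2 ^ (6 * a + 2 + t) := by
      have : 6 * a + 4 + t = 6 * a + 2 + t + 2 := by ring
      rw [this, kb_succ_succ]
    rw [h2, h3]
    refine lt_of_le_of_lt h1 ?_
    have h4 : 0 < ∏ k ∈ Finset.range (a + 1), (2 * k + 1) :=
      Finset.prod_pos (fun k _ => by omega)
    have h5 : 0 < 6 - t := by omega
    have h6 : 3 * 2 ^ (6 * a + 2 + t) < 3 * 2 ^ (6 * a + 2 + t) + 1 := Nat.lt_succ_self _
    exact Nat.mul_lt_mul_of_pos_right (Nat.mul_lt_mul_of_pos_right h6 h4) h5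

end Pool.Agent.LibHV64
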