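import Pool.Agent.LibHV64.P1
import Pool.Agent.LibHV64.P2

/-!
ROW P3 (SHORT). Lines of `ℝ ^ s` with pairwise angles (nearly) at least `60` degrees: at most `kb s` (cites P1 `lp_gen`, P2 `lp_numbers` as stated).

PLAN. `m` from `lp_numbers s`. `β = 1/4 + η`. `g η = 2 (m+1) + 1 - β (s + 2 (m+1)) = (6 (m+1) + 4 - s) / 4 - η (s + 2 (m+1))`. `lp_gen`: `n * g η ≤ (1 - β) (s + 2 (m+1)) ∏_(k < m+1) (s + 2k)/(2k+1)
≤ (3/4) ∏_(k < m+2) (s + 2 k) / ∏_(k < m+1) (2k+1) =: R` (`Finset.prod_div_distrib`, `Finset.prod_range_succ`). By P2 `R < (kb s + 1) * g 0`; for small `η > 0` also `R < (kb s + 1) * g η`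
and `g η > 0` (e.g. `η = min (1/4) (((kb s + 1) g 0 - R) / (2 (kb s + 1) (s + 2 m + 2)))`, or continuity). So `n < kb s + 1`.
-/

set_option autoImplicit false

namespace Pool.Agent.LibHV64

theorem lines_bound (s : ℕ) (hs : 1 ≤ s) : ∃ η : ℝ, 0 < η ∧ ∀ (n : ℕ) (v : Fin n → Fin s → ℝ),
    (∀ i, ∑ a, v i a ^ 2 = 1) → (∀ i j, i ≠ j → (∑ a, v i a * v j a) ^ 2 ≤ 1 / 4 + η) → n ≤ kb s := by
  obtain ⟨m, hm1, hm2⟩ := lp_numbers s hs
  have hs' : (1 : ℝ) ≤ s := by exact_mod_cast hs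
  have hm0 : (0 : ℝ) ≤ (m : ℝ) := Nat.cast_nonneg m
  have hK : (0 : ℝ) < (kb s : ℝ) + 1 := by positivity
  have hQ : (0 : ℝ) < ∏ k ∈ Finset.range (m + 1), (2 * (k : ℝ) + 1) :=
    Finset.prod_pos fun k _ => by positivity
  have hW : (0 : ℝ) < (s : ℝ) + 2 * ((m : ℝ) + 1) := by positivity
  have hP0 : (0 : ℝ) ≤ ∏ k ∈ Finset.range (m + 1), ((s : ℝ) + 2 * k) / (2 * k + 1) :=
    Finset.prod_nonneg fun k _ => by positivity
  -- the numbers, in the reals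
  have hcast : (3 : ℝ) * ∏ k ∈ Finset.range (m + 2), ((s : ℝ) + 2 * k) <
      ((kb s : ℝ) + 1) * (∏ k ∈ Finset.range (m + 1), (2 * (k : ℝ) + 1)) * (6 * ((m : ℝ) + 1) + 4 - s) := by
    have h1 : ((3 * ∏ k ∈ Finset.range (m + 2), (s + 2 * k) : ℕ) : ℝ) <
        (((kb s + 1) * (∏ k ∈ Finset.range (m + 1), (2 * k + 1)) * (6 * (m + 1) + 4 - s) : ℕ) : ℝ) := by
      exact_mod_cast hm2
    rw [Nat.cast_mul, Nat.cast_mul, Nat.cast_mul, Nat.cast_sub hm1.le, Nat.cast_prod, Nat.cast_prod] at h1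
    push_cast at h1
    exact h1
  have hA : ∏ k ∈ Finset.range (m + 2), ((s : ℝ) + 2 * k) =
      (∏ k ∈ Finset.range (m + 1), ((s : ℝ) + 2 * k)) * ((s : ℝ) + 2 * ((m : ℝ) + 1)) := by
    rw [Finset.prod_range_succ]
    push_cast
    ring
  have hPQ : (∏ k ∈ Finset.range (m + 1), ((s : ℝ) + 2 * k) / (2 * k + 1)) *
      (∏ k ∈ Finset.range (m + 1), (2 * (k : ℝ) + 1)) = ∏ k ∈ Finset.range (m + 1), ((s : ℝ) + 2 * k) := by
    rw [Finset.prod_div_distrib, div_mul_cancel₀ _ hQ.ne']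
  set P : ℝ := ∏ k ∈ Finset.range (m + 1), ((s : ℝ) + 2 * k) / (2 * k + 1) with hPd
  set Q : ℝ := ∏ k ∈ Finset.range (m + 1), (2 * (k : ℝ) + 1) with hQd
  set W : ℝ := (s : ℝ) + 2 * ((m : ℝ) + 1) with hWd
  set K : ℝ := (kb s : ℝ) + 1 with hKd
  obtain ⟨G, hG⟩ : ∃ G : ℝ, G = 6 * ((m : ℝ) + 1) + 4 - s := ⟨_, rfl⟩
  rw [← hG] at hcast
  have h3 : 3 * (P * W) < K * G := by
    rw [hA, ← hPQ] at hcast
    have h4 : Q * (3 * (P * W)) < Q * (K * G) := by nlinarith [hcast]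
    exact lt_of_mul_lt_mul_left h4 hQ.le
  have hδ : 0 < K * (G / 4) - 3 / 4 * (P * W) := by linarith
  obtain ⟨η, hη0, hη1, hη2⟩ : ∃ η : ℝ, 0 < η ∧ η ≤ 1 / 4 ∧ K * (η * W) < K * (G / 4) - 3 / 4 * (P * W) := by
    refine ⟨min (1 / 4) ((K * (G / 4) - 3 / 4 * (P * W)) / (2 * (K * W))), lt_min (by norm_num) (by positivity),
      min_le_left _ _, ?_⟩
    have h := min_le_right (1 / 4 : ℝ) ((K * (G / 4) - 3 / 4 * (P * W)) / (2 * (K * W)))
    have h5 : K * (min (1 / 4) ((K * (G / 4) - 3 / 4 * (P * W)) / (2 * (K * W))) * W) ≤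
        K * (((K * (G / 4) - 3 / 4 * (P * W)) / (2 * (K * W))) * W) :=
      mul_le_mul_of_nonneg_left (mul_le_mul_of_nonneg_right h hW.le) hK.le
    have h6 : K * (((K * (G / 4) - 3 / 4 * (P * W)) / (2 * (K * W))) * W) = (K * (G / 4) - 3 / 4 * (P * W)) / 2 := by
      field_simp
    linarith
  refine ⟨η, hη0, fun n v hv h => ?_⟩
  have hg : 2 * ((m : ℝ) + 1) + 1 - (1 / 4 + η) * W = G / 4 - η * W := by
    rw [hG, hWd]
    ring
  have hgpos : 0 < G / 4 - η * W := by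
    have h5 : 0 ≤ 3 / 4 * (P * W) := by positivity
    have h6 : 0 < K * (G / 4 - η * W) := by
      have h7 : K * (G / 4 - η * W) = K * (G / 4) - K * (η * W) := by ring
      linarith
    exact pos_of_mul_pos_right h6 hK.le
  have hlp := lp_gen v hv (1 / 4 + η) (by linarith) h m (by rw [← hWd, hg]; exact hgpos.le)
  rw [← hWd, ← hPd, hg] at hlp
  have h8 : (n : ℝ) * (G / 4 - η * W) < K * (G / 4 - η * W) := by
    have h9 : (1 - (1 / 4 + η)) * W * P ≤ 3 / 4 * (P * W) := by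
      have h10 : 0 ≤ η * (P * W) := by positivity
      nlinarith [h10]
    have h11 : K * (G / 4 - η * W) = K * (G / 4) - K * (η * W) := by ring
    linarith
  have h12 : (n : ℝ) < K := lt_of_mul_lt_mul_right h8 hgpos.le
  have h13 : n < kb s + 1 := by
    rw [hKd] at h12
    exact_mod_cast h12
  omega

end Pool.Agent.LibHV64
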